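import Pool.Agent.Lib.MP_877d49_an.Abstract
import Pool.Agent.Lib.MP_877d49_an.Defs
import Pool.Agent.Lib.MP_877d49_an.Haar3

/-!
# Every greedy basis is 1-greedy for an equivalent s-norm

Let `(e_j)` be a semi-normalized Schauder basis of a real or complex normed space `X` which is
`C`-greedy.  Then there are `0 < s < 1`, depending only on `C`, and an `s`-norm on `X`, equivalent
to the norm of `X`, for which the basis is `1`-greedy.  The Haar system of `L_p[0,1]`,
`1 < p < ∞`, is treated as well (its unconditionality and democracy are proved, not assumed), which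
answers Q1 of MP_877d49_an.
-/

namespace Pool.Agent.Results.MP_877d49_an.EveryGreedyBasis

open Finset Filter Topology MeasureTheory
open Pool.Agent.Lib.MP_877d49_an
open scoped ENNReal

section

variable {𝕜 : Type*} [RCLike 𝕜] {X : Type*} [NormedAddCommGroup X] [NormedSpace 𝕜 X]

/-- `(e_j)` is a semi-normalized Schauder basis of `X` with coordinate functionals `a_j`. -/
structure IsSchauderBasis (e : ℕ → X) (a : ℕ → X →L[𝕜] 𝕜) : Prop where
  biorthogonal : ∀ i j, a i (e j) = if i = j then 1 else 0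
  expansion : ∀ f, Tendsto (fun n => ∑ j ∈ range n, a j f • e j) atTop (𝓝 f)
  seminormalized : ∃ c C : ℝ, 0 < c ∧ ∀ j, c ≤ ‖e j‖ ∧ ‖e j‖ ≤ C

/-- The system is `C`-greedy: every greedy sum of order `m` is, up to the factor `C`, at least
as good as every `m`-term approximation. -/
def IsGreedyWith (C : ℝ) (e : ℕ → X) (a : ℕ → X →L[𝕜] 𝕜) : Prop :=
  ∀ (f : X) (m : ℕ) (A : Finset ℕ), A.card = m → IsGreedySet (fun j => a j f) A →
    ∀ (B : Finset ℕ) (b : ℕ → 𝕜), B.card ≤ m →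
      ‖f - ∑ j ∈ A, a j f • e j‖ ≤ C * ‖f - ∑ j ∈ B, b j • e j‖

variable {e : ℕ → X} {a : ℕ → X →L[𝕜] 𝕜} {C : ℝ}

lemma coef_sum (hb : IsSchauderBasis e a) (F : Finset ℕ) (x : ℕ → 𝕜) (i : ℕ) :
    a i (∑ j ∈ F, x j • e j) = if i ∈ F then x i else 0 := by
  rw [map_sum]
  have : ∀ j ∈ F, a i (x j • e j) = if i = j then x j else 0 := by
    intro j _
    rw [map_smul, hb.biorthogonal, smul_eq_mul]
    split_ifs <;> simp
  rw [Finset.sum_congr rfl this, Finset.sum_ite_eq]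

lemma one_le_C (hb : IsSchauderBasis e a) (hC : IsGreedyWith C e a) : 1 ≤ C := by
  obtain ⟨c, C', hc, hcC⟩ := hb.seminormalized
  have h0 : 0 < ‖e 0‖ := lt_of_lt_of_le hc (hcC 0).1
  have h := hC (e 0) 0 ∅ rfl (fun i hi => absurd hi (Finset.notMem_empty i)) ∅ 0 (by simp)
  simp only [Finset.sum_empty, sub_zero] at h
  by_contra hlt
  push Not at hlt
  nlinarith

lemma coef_bound (hb : IsSchauderBasis e a) (f : X) : ∃ R : ℝ, 0 ≤ R ∧ ∀ j, ‖a j f‖ ≤ R := by
  obtain ⟨c, C', hc, hcC⟩ := hb.seminormalized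
  obtain ⟨R0, hR0⟩ := (hb.expansion f).norm.bddAbove_range
  have hR0' : ∀ n, ‖∑ j ∈ range n, a j f • e j‖ ≤ R0 := fun n => hR0 ⟨n, rfl⟩
  have h0 : 0 ≤ R0 := le_trans (norm_nonneg _) (hR0' 0)
  refine ⟨2 * R0 / c, by positivity, fun j => ?_⟩
  have h1 : a j f • e j = (∑ i ∈ range (j + 1), a i f • e i) - ∑ i ∈ range j, a i f • e i := by
    rw [Finset.sum_range_succ]
    abel
  have h2 : ‖a j f • e j‖ ≤ 2 * R0 := by
    rw [h1]
    calc _ ≤ ‖∑ i ∈ range (j + 1), a i f • e i‖ + ‖∑ i ∈ range j, a i f • e i‖ := norm_sub_le _ _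
      _ ≤ 2 * R0 := by linarith [hR0' (j + 1), hR0' j]
  rw [norm_smul] at h2
  rw [le_div_iff₀ hc]
  calc ‖a j f‖ * c ≤ ‖a j f‖ * ‖e j‖ := mul_le_mul_of_nonneg_left (hcC j).1 (norm_nonneg _)
    _ ≤ 2 * R0 := h2

/-- Greedy bases are suppression unconditional (Konyagin, Temlyakov). -/
lemma suppression (hb : IsSchauderBasis e a) (hC : IsGreedyWith C e a) (f : X)
    (A : Finset ℕ) : ‖f - ∑ j ∈ A, a j f • e j‖ ≤ C * ‖f‖ := by
  obtain ⟨R, hR0, hR⟩ := coef_bound hb f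
  set g : X := f + ∑ j ∈ A, (((2 * R : ℝ) : 𝕜)) • e j with hg
  have hcoef : ∀ i, a i g = a i f + if i ∈ A then ((2 * R : ℝ) : 𝕜) else 0 := by
    intro i
    rw [hg, map_add, coef_sum hb A (fun _ => ((2 * R : ℝ) : 𝕜))]
  have hgr : IsGreedySet (fun j => a j g) A := by
    intro i hi j hj
    simp only [hcoef, if_pos hi, if_neg hj, add_zero]
    have h1 : ‖((2 * R : ℝ) : 𝕜)‖ = 2 * R := by
      rw [RCLike.norm_ofReal, abs_of_nonneg (by linarith)]
    have h2 : ‖((2 * R : ℝ) : 𝕜)‖ ≤ ‖a i f + ((2 * R : ℝ) : 𝕜)‖ + ‖a i f‖ := by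
      calc ‖((2 * R : ℝ) : 𝕜)‖ = ‖(a i f + ((2 * R : ℝ) : 𝕜)) - a i f‖ := by
            rw [add_sub_cancel_left]
        _ ≤ _ := norm_sub_le _ _
    linarith [hR i, hR j]
  have h := hC g A.card A rfl hgr A (fun _ => ((2 * R : ℝ) : 𝕜)) le_rfl
  have e1 : g - ∑ j ∈ A, a j g • e j = f - ∑ j ∈ A, a j f • e j := by
    have : ∑ j ∈ A, a j g • e j
        = ∑ j ∈ A, a j f • e j + ∑ j ∈ A, ((2 * R : ℝ) : 𝕜) • e j := by
      rw [← Finset.sum_add_distrib]
      refine Finset.sum_congr rfl fun j hj => ?_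
      rw [hcoef, if_pos hj, add_smul]
    rw [this, hg]
    abel
  have e2 : g - ∑ j ∈ A, ((2 * R : ℝ) : 𝕜) • e j = f := by
    rw [hg]
    abel
  rw [e1, e2] at h
  exact h

lemma projection (hb : IsSchauderBasis e a) (hC : IsGreedyWith C e a) (f : X)
    (A : Finset ℕ) : ‖∑ j ∈ A, a j f • e j‖ ≤ (1 + C) * ‖f‖ := by
  have h := suppression hb hC f A
  have h1 : ∑ j ∈ A, a j f • e j = f - (f - ∑ j ∈ A, a j f • e j) := by abel
  rw [h1]
  calc _ ≤ ‖f‖ + ‖f - ∑ j ∈ A, a j f • e j‖ := norm_sub_le _ _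
    _ ≤ (1 + C) * ‖f‖ := by linarith

/-- A convex combination lemma: multipliers in `[0,1]` are dominated by subset sums. -/
lemma convex_sum (x : ℕ → X) (F : Finset ℕ) : ∀ (lam : ℕ → ℝ) (y : X) (M : ℝ),
    (∀ j ∈ F, 0 ≤ lam j ∧ lam j ≤ 1) → (∀ A ⊆ F, ‖y + ∑ j ∈ A, x j‖ ≤ M) →
      ‖y + ∑ j ∈ F, ((lam j : ℝ) : 𝕜) • x j‖ ≤ M := by
  induction F using Finset.induction_on with
  | empty =>
    intro lam y M _ h
    simpa using h ∅ (Finset.Subset.refl _)
  | insert k F hk ih =>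
    intro lam y M hlam h
    have hk0 := hlam k (Finset.mem_insert_self _ _)
    have ih1 := ih lam y M (fun j hj => hlam j (Finset.mem_insert_of_mem hj))
      (fun A hA => h A (hA.trans (Finset.subset_insert _ _)))
    have ih2 := ih lam (y + x k) M (fun j hj => hlam j (Finset.mem_insert_of_mem hj))
      (fun A hA => by
        have hkA : k ∉ A := fun hh => hk (hA hh)
        have := h (insert k A) (Finset.insert_subset_insert _ hA)
        rwa [Finset.sum_insert hkA, ← add_assoc] at this)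
    rw [Finset.sum_insert hk]
    set S := ∑ j ∈ F, ((lam j : ℝ) : 𝕜) • x j with hS
    have e1 : y + (((lam k : ℝ) : 𝕜) • x k + S)
        = ((1 - lam k : ℝ) : 𝕜) • (y + S) + ((lam k : ℝ) : 𝕜) • (y + x k + S) := by
      rw [RCLike.ofReal_sub, RCLike.ofReal_one, sub_smul, one_smul, smul_add, smul_add,
        smul_add]
      abel
    rw [e1]
    calc _ ≤ ‖((1 - lam k : ℝ) : 𝕜) • (y + S)‖ + ‖((lam k : ℝ) : 𝕜) • (y + x k + S)‖ :=
          norm_add_le _ _
      _ = (1 - lam k) * ‖y + S‖ + lam k * ‖y + x k + S‖ := by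
          rw [norm_smul, norm_smul, RCLike.norm_ofReal, RCLike.norm_ofReal,
            abs_of_nonneg (by linarith [hk0.2]), abs_of_nonneg hk0.1]
      _ ≤ (1 - lam k) * M + lam k * M :=
          add_le_add (mul_le_mul_of_nonneg_left ih1 (by linarith [hk0.2]))
            (mul_le_mul_of_nonneg_left ih2 hk0.1)
      _ = M := by ring

lemma real_mult (hb : IsSchauderBasis e a) (hC : IsGreedyWith C e a) (f : X)
    (F : Finset ℕ) (lam : ℕ → ℝ) (hlam : ∀ j ∈ F, 0 ≤ lam j ∧ lam j ≤ 1) :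
    ‖∑ j ∈ F, ((lam j : ℝ) : 𝕜) • (a j f • e j)‖ ≤ (1 + C) * ‖f‖ := by
  have h := convex_sum (𝕜 := 𝕜) (fun j => a j f • e j) F lam 0 ((1 + C) * ‖f‖) hlam
    (fun A _ => by rw [zero_add]; exact projection hb hC f A)
  rwa [zero_add] at h

lemma norm_I_le : ‖(RCLike.I : 𝕜)‖ ≤ 1 := by
  rw [RCLike.norm_I]
  split_ifs <;> norm_num

lemma mult (hb : IsSchauderBasis e a) (hC : IsGreedyWith C e a) (f : X)
    (F : Finset ℕ) (μ : ℕ → 𝕜) (hμ : ∀ j ∈ F, ‖μ j‖ ≤ 1) :
    ‖∑ j ∈ F, μ j • (a j f • e j)‖ ≤ 4 * (1 + C) * ‖f‖ := by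
  have hre : ∀ j ∈ F, |RCLike.re (μ j)| ≤ 1 := fun j hj =>
    (RCLike.abs_re_le_norm _).trans (hμ j hj)
  have him : ∀ j ∈ F, |RCLike.im (μ j)| ≤ 1 := fun j hj =>
    (RCLike.abs_im_le_norm _).trans (hμ j hj)
  have b1 := real_mult hb hC f F (fun j => max (RCLike.re (μ j)) 0)
    (fun j hj => ⟨le_max_right _ _, max_le ((abs_le.mp (hre j hj)).2) zero_le_one⟩)
  have b2 := real_mult hb hC f F (fun j => max (-RCLike.re (μ j)) 0)
    (fun j hj => ⟨le_max_right _ _, max_le (by linarith [(abs_le.mp (hre j hj)).1])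
      zero_le_one⟩)
  have b3 := real_mult hb hC f F (fun j => max (RCLike.im (μ j)) 0)
    (fun j hj => ⟨le_max_right _ _, max_le ((abs_le.mp (him j hj)).2) zero_le_one⟩)
  have b4 := real_mult hb hC f F (fun j => max (-RCLike.im (μ j)) 0)
    (fun j hj => ⟨le_max_right _ _, max_le (by linarith [(abs_le.mp (him j hj)).1])
      zero_le_one⟩)
  set S1 := ∑ j ∈ F, ((max (RCLike.re (μ j)) 0 : ℝ) : 𝕜) • (a j f • e j) with hS1
  set S2 := ∑ j ∈ F, ((max (-RCLike.re (μ j)) 0 : ℝ) : 𝕜) • (a j f • e j) with hS2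
  set S3 := ∑ j ∈ F, ((max (RCLike.im (μ j)) 0 : ℝ) : 𝕜) • (a j f • e j) with hS3
  set S4 := ∑ j ∈ F, ((max (-RCLike.im (μ j)) 0 : ℝ) : 𝕜) • (a j f • e j) with hS4
  have hpm : ∀ r : ℝ, r = max r 0 - max (-r) 0 := by
    intro r
    rcases le_total r 0 with h | h
    · rw [max_eq_right h, max_eq_left (by linarith)]; ring
    · rw [max_eq_left h, max_eq_right (by linarith)]; ring
  have key : ∑ j ∈ F, μ j • (a j f • e j) = (S1 - S2) + (RCLike.I : 𝕜) • (S3 - S4) := by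
    rw [hS1, hS2, hS3, hS4, ← Finset.sum_sub_distrib, ← Finset.sum_sub_distrib,
      Finset.smul_sum, ← Finset.sum_add_distrib]
    refine Finset.sum_congr rfl fun j _ => ?_
    have hv : ∀ v : X, μ j • v
        = ((RCLike.re (μ j) : ℝ) : 𝕜) • v
          + (RCLike.I : 𝕜) • (((RCLike.im (μ j) : ℝ) : 𝕜) • v) := by
      intro v
      rw [smul_smul, ← add_smul, mul_comm (RCLike.I : 𝕜), RCLike.re_add_im]
    rw [← sub_smul, ← sub_smul, ← RCLike.ofReal_sub, ← RCLike.ofReal_sub, ← hpm, ← hpm]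
    exact hv _
  have h3 : ‖(RCLike.I : 𝕜) • (S3 - S4)‖ ≤ ‖S3 - S4‖ := by
    rw [norm_smul]
    have := norm_I_le (𝕜 := 𝕜)
    have h0 := norm_nonneg (S3 - S4)
    nlinarith
  rw [key]
  calc _ ≤ ‖S1 - S2‖ + ‖(RCLike.I : 𝕜) • (S3 - S4)‖ := norm_add_le _ _
    _ ≤ (‖S1‖ + ‖S2‖) + (‖S3‖ + ‖S4‖) :=
        add_le_add (norm_sub_le _ _) (h3.trans (norm_sub_le _ _))
    _ ≤ 4 * (1 + C) * ‖f‖ := by linarith

/-- Unconditionality with coefficients dominated by those of `f`. -/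
lemma dominated (hb : IsSchauderBasis e a) (hC : IsGreedyWith C e a) (f : X)
    (F : Finset ℕ) (c : ℕ → 𝕜) (hc : ∀ j ∈ F, ‖c j‖ ≤ ‖a j f‖) :
    ‖∑ j ∈ F, c j • e j‖ ≤ 4 * (1 + C) * ‖f‖ := by
  have h := mult hb hC f F (fun j => c j / a j f) (fun j hj => by
    rw [norm_div]
    exact div_le_one_of_le₀ (hc j hj) (norm_nonneg _))
  have e1 : ∑ j ∈ F, c j • e j = ∑ j ∈ F, (c j / a j f) • (a j f • e j) := by
    refine Finset.sum_congr rfl fun j hj => ?_
    rw [smul_smul]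
    by_cases h0 : a j f = 0
    · have : c j = 0 := by
        have := hc j hj
        rw [h0, norm_zero] at this
        exact norm_le_zero_iff.mp this
      rw [this, h0]
      simp
    · rw [div_mul_cancel₀ _ h0]
  rw [e1]
  exact h

/-- Democracy with coefficients (Konyagin, Temlyakov). -/
lemma democracy (hb : IsSchauderBasis e a) (hC : IsGreedyWith C e a) (A B : Finset ℕ)
    (hAB : A.card ≤ B.card) (c d : ℕ → 𝕜) (hc : ∀ j ∈ A, ‖c j‖ ≤ 1)
    (hd : ∀ j ∈ B, 1 ≤ ‖d j‖) :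
    ‖∑ j ∈ A, c j • e j‖ ≤ (4 * (1 + C) + C ^ 2) * ‖∑ j ∈ B, d j • e j‖ := by
  have hC1 := one_le_C hb hC
  set h : X := ∑ j ∈ B, d j • e j with hh
  have hcoef : ∀ i, a i h = if i ∈ B then d i else 0 := fun i => coef_sum hb B d i
  have p1 : ‖∑ j ∈ A ∩ B, c j • e j‖ ≤ 4 * (1 + C) * ‖h‖ := by
    refine dominated hb hC h _ c fun j hj => ?_
    obtain ⟨hjA, hjB⟩ := Finset.mem_inter.mp hj
    rw [hcoef, if_pos hjB]
    exact (hc j hjA).trans (hd j hjB)
  have p2 : ‖∑ j ∈ B \ A, d j • e j‖ ≤ C * ‖h‖ := by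
    have h1 := suppression hb hC h (A ∩ B)
    have h2 : h - ∑ j ∈ A ∩ B, a j h • e j = ∑ j ∈ B \ A, d j • e j := by
      have h3 : ∑ j ∈ A ∩ B, a j h • e j = ∑ j ∈ A ∩ B, d j • e j := by
        refine Finset.sum_congr rfl fun j hj => ?_
        rw [hcoef, if_pos (Finset.mem_inter.mp hj).2]
      have h4 : ∑ j ∈ B \ A, d j • e j + ∑ j ∈ A ∩ B, d j • e j = ∑ j ∈ B, d j • e j := by
        rw [Finset.inter_comm, ← Finset.sum_union (Finset.disjoint_sdiff_inter B A),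
          Finset.sdiff_union_inter]
      rw [h3, hh, ← h4]
      abel
    rwa [h2] at h1
  have hcard : (A \ B).card ≤ (B \ A).card := by
    have h1 : (A \ B).card + (A ∩ B).card = A.card := Finset.card_sdiff_add_card_inter A B
    have h2 : (B \ A).card + (B ∩ A).card = B.card := Finset.card_sdiff_add_card_inter B A
    rw [Finset.inter_comm] at h2
    omega
  have p3 : ‖∑ j ∈ A \ B, c j • e j‖ ≤ C * ‖∑ j ∈ B \ A, d j • e j‖ := by
    set g : X := ∑ j ∈ A \ B, c j • e j + ∑ j ∈ B \ A, d j • e j with hg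
    have hgc : ∀ i, a i g = (if i ∈ A \ B then c i else 0) + if i ∈ B \ A then d i else 0 := by
      intro i
      rw [hg, map_add, coef_sum hb, coef_sum hb]
    have hdis : ∀ i, i ∈ B \ A → i ∉ A \ B := by
      intro i hi hi'
      exact (Finset.mem_sdiff.mp hi).2 (Finset.mem_sdiff.mp hi').1
    have hgr : IsGreedySet (fun j => a j g) (B \ A) := by
      intro i hi j hj
      have h1 : a i g = d i := by rw [hgc, if_neg (hdis i hi), if_pos hi, zero_add]
      have h2 : ‖a j g‖ ≤ 1 := by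
        rw [hgc, if_neg hj, add_zero]
        split_ifs with h
        · exact hc j (Finset.mem_sdiff.mp h).1
        · simp
      show ‖a j g‖ ≤ ‖a i g‖
      rw [h1]
      exact h2.trans (hd i (Finset.mem_sdiff.mp hi).1)
    have h := hC g (B \ A).card (B \ A) rfl hgr (A \ B) c hcard
    have e1 : g - ∑ j ∈ B \ A, a j g • e j = ∑ j ∈ A \ B, c j • e j := by
      have : ∑ j ∈ B \ A, a j g • e j = ∑ j ∈ B \ A, d j • e j := by
        refine Finset.sum_congr rfl fun j hj => ?_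
        rw [hgc, if_neg (hdis j hj), if_pos hj, zero_add]
      rw [this, hg]
      abel
    have e2 : g - ∑ j ∈ A \ B, c j • e j = ∑ j ∈ B \ A, d j • e j := by
      rw [hg]
      abel
    rwa [e1, e2] at h
  have e3 : ∑ j ∈ A, c j • e j = ∑ j ∈ A \ B, c j • e j + ∑ j ∈ A ∩ B, c j • e j := by
    rw [← Finset.sum_union (Finset.disjoint_sdiff_inter A B), Finset.sdiff_union_inter]
  rw [e3]
  calc _ ≤ ‖∑ j ∈ A \ B, c j • e j‖ + ‖∑ j ∈ A ∩ B, c j • e j‖ := norm_add_le _ _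
    _ ≤ C * (C * ‖h‖) + 4 * (1 + C) * ‖h‖ :=
        add_le_add (p3.trans (mul_le_mul_of_nonneg_left p2 (by linarith))) p1
    _ = (4 * (1 + C) + C ^ 2) * ‖h‖ := by ring

/-- A greedy basis satisfies the hypotheses of the abstract renorming theorem. -/
lemma greedySystem (hb : IsSchauderBasis e a) (hC : IsGreedyWith C e a) :
    GreedySystem e (LinearMap.pi (fun j => ((a j : X →L[𝕜] 𝕜) : X →ₗ[𝕜] 𝕜)))
      (4 * (1 + C) + C ^ 2) := by
  have hC1 := one_le_C hb hC
  have hlc : ∀ c : ℕ →₀ 𝕜, Finsupp.linearCombination 𝕜 e c = ∑ j ∈ c.support, c j • e j :=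
    fun c => rfl
  refine ⟨by nlinarith, ?_, ?_, ?_, ?_⟩
  · intro i j
    show a j (e i) = if i = j then 1 else 0
    rw [hb.biorthogonal]
    by_cases h : i = j
    · rw [if_pos h, if_pos h.symm]
    · rw [if_neg h, if_neg (fun h' => h h'.symm)]
  · intro f c hc
    rw [hlc]
    refine (dominated hb hC f c.support c (fun j _ => hc j)).trans ?_
    have := norm_nonneg f
    nlinarith [mul_nonneg (sq_nonneg C) this]
  · intro f M hM
    refine le_of_tendsto (hb.expansion f).norm (Eventually.of_forall fun n => ?_)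
    exact hM (range n)
  · intro c d hcd hc hd
    rw [hlc, hlc]
    exact democracy hb hC c.support d.support hcd c d (fun j _ => hc j) hd

end

/-- The renorming: a system satisfying the hypotheses of the abstract theorem with constant `K` is
`1`-greedy for an equivalent `s`-norm, `s = 1 / (1 + 2 (K + K ^ 2))`. -/
theorem renorm {𝕜 : Type*} [RCLike 𝕜] {X : Type*} [NormedAddCommGroup X] [NormedSpace 𝕜 X]
    {ι : Type*} [DecidableEq ι] {e : ι → X} {a : X →ₗ[𝕜] (ι → 𝕜)} {K : ℝ}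
    (H : GreedySystem e a K) :
    ∃ N : X → ℝ, IsEquivalentSNorm 𝕜 (1 / (1 + 2 * (K + K ^ 2))) N ∧
      IsOneGreedy e (fun f j => a f j) N := by
  have hK : 1 ≤ K := H.one_le
  set D : ℝ := 1 + 2 * (K + K ^ 2) with hD
  have hD5 : 5 ≤ D := by rw [hD]; nlinarith
  have hDpos : 0 < D := by linarith
  refine ⟨GreedySystem.newNorm e a, ?_, ?_⟩
  · refine ⟨H.newNorm_nonneg, ?_, H.newNorm_smul, ?_, ?_⟩
    · intro f
      constructor
      · intro h
        have := H.newNorm_lower f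
        rw [h] at this
        exact norm_le_zero_iff.mp this
      · intro h
        have h3 := H.newNorm_upper f
        rw [h, norm_zero, mul_zero] at h3
        rw [h]
        exact le_antisymm h3 (H.newNorm_nonneg 0)
    · intro f g
      apply H.newNorm_rpow_add (by positivity)
      · rw [div_le_div_iff₀ hDpos (by norm_num)]; linarith
      · rw [← hD, one_div, inv_mul_cancel₀ hDpos.ne']
    · refine ⟨1, K + K ^ 2, one_pos, by nlinarith, fun f => ⟨?_, H.newNorm_upper f⟩⟩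
      rw [one_mul]
      exact H.newNorm_lower f
  · intro f m A hm hA B b hB
    subst hm
    exact H.newNorm_greedy f A (fun i hi j hj => hA i hi j hj) B hB b

lemma exponent {K : ℝ} (hK : 1 ≤ K) :
    0 < 1 / (1 + 2 * (K + K ^ 2)) ∧ 1 / (1 + 2 * (K + K ^ 2)) < 1 := by
  have hD : 1 < 1 + 2 * (K + K ^ 2) := by nlinarith
  exact ⟨by positivity, by rw [div_lt_one (by linarith)]; exact hD⟩

/-- **Result.**
(1) For every `C` there is `0 < s < 1` such that every `C`-greedy (semi-normalized Schauder) basis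
of a real or complex normed space is `1`-greedy with respect to an equivalent `s`-norm.
(2) For every `1 < p < ∞` the Haar system of `L_p[0,1]` is `1`-greedy with respect to an
equivalent `s`-norm, for some `0 < s < 1`. -/
theorem result.{u, v} (𝕜 : Type u) [RCLike 𝕜] :
    (∀ C : ℝ, ∃ s : ℝ, 0 < s ∧ s < 1 ∧
      ∀ (X : Type v) [NormedAddCommGroup X] [NormedSpace 𝕜 X] (e : ℕ → X) (a : ℕ → X →L[𝕜] 𝕜),
        IsSchauderBasis e a → IsGreedyWith C e a →
          ∃ N : X → ℝ, IsEquivalentSNorm 𝕜 s N ∧ IsOneGreedy e (fun f j => a j f) N) ∧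
    (∀ (p : ℝ≥0∞) [Fact (1 ≤ p)], 1 < p → p < ∞ → ∃ s : ℝ, 0 < s ∧ s < 1 ∧
      ∃ N : Lp 𝕜 p unitMeasure → ℝ, IsEquivalentSNormLp s N ∧ HaarOneGreedy N) := by
  refine ⟨fun C => ?_, fun p _ h1 h2 => ?_⟩
  · by_cases hC1 : 1 ≤ C
    · have hK : 1 ≤ 4 * (1 + C) + C ^ 2 := by nlinarith
      refine ⟨_, (exponent hK).1, (exponent hK).2, fun X _ _ e a hb hC => ?_⟩
      exact renorm (greedySystem hb hC)
    · exact ⟨1 / 2, by norm_num, by norm_num, fun X _ _ e a hb hC =>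
        absurd (one_le_C hb hC) hC1⟩
  · obtain ⟨K, H⟩ := exists_greedySystem (𝕜 := 𝕜) h1 h2.ne
    obtain ⟨N, hN1, hN2⟩ := renorm H
    exact ⟨_, (exponent H.one_le).1, (exponent H.one_le).2, N, hN1, hN2⟩

end Pool.Agent.Results.MP_877d49_an.EveryGreedyBasis
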